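import Pool.Agent.Y714.KF.Stm2

/-! # Local factors at congruent pairs of coordinates (project KF, `S_PAD`). -/

set_option autoImplicit false

namespace Pool.Agent.Y297.KF

open NumberField FractionalIdeal Module Finset ComplexConjugate MeasureTheory Filter Topology
open scoped nonZeroDivisors
open Pool.Agent.Y714.KF

variable {K : Type} [Field K] [NumberField K]

theorem coe_add_sp {a : Ideal (𝓞 K)} {p : ℕ} (h : a ⊔ Ideal.span {(p : 𝓞 K)} = ⊤) :
    (a : FI K) + sp (p : K) = 1 := by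
  have h1 := congrArg (fun J : Ideal (𝓞 K) => (J : FI K)) h
  rw [coeIdeal_sup, coeIdeal_span_singleton, map_natCast, coeIdeal_top] at h1
  exact h1

/-- the content is prime to `p` -/
theorem coprime {p : ℕ} {I : (FI K)ˣ} {P : K × K} {a : Ideal (𝓞 K)}
    (ha : ct P = (a : FI K) * (I : FI K)) (hL : ¬ Cf p I (Lt P)) :
    a ⊔ Ideal.span {(p : 𝓞 K)} = ⊤ := by
  by_contra hcon
  obtain ⟨q, hq, hle⟩ := Ideal.exists_le_maximal _ hcon
  apply hL
  refine ⟨q, hq.isPrime, hle (Ideal.mem_sup_right (Ideal.mem_span_singleton_self _)), ?_⟩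
  intro x hx
  have h1 : x ∈ ct P := Lt_mem le_rfl hx
  rw [ha] at h1
  have h2 : (a : FI K) * (I : FI K) ≤ (q : FI K) * (I : FI K) := by
    have : (a : FI K) ≤ (q : FI K) := (coeIdeal_le_coeIdeal K).mpr (le_sup_left.trans hle)
    gcongr
  exact h2 h1

theorem redAt {p : ℕ} (hp : p.Prime) {I : (FI K)ˣ} {P : K × K} {a : Ideal (𝓞 K)}
    (ha : ct P = (a : FI K) * (I : FI K)) (hct : ct P ≤ I) (h0 : ct P ≠ 0)
    (hL : Loc p I (Lt P)) : RedAt p P := by
  intro x hx hx'
  have hA1 : (a : FI K) + sp (p : K) = 1 := coe_add_sp (coprime ha hL.1)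
  have hAle : (a : FI K) ≤ 1 := coeIdeal_le_one
  have hI : (I : FI K) ≠ 0 := I.ne_zero
  have hA0 : (a : FI K) ≠ 0 := by
    intro h
    rw [h, zero_mul] at ha
    exact h0 ha
  have hxc : sp x ≤ ct P := sp_le.2 (Lt_mem le_rfl hx)
  have e1 : sp (p : K) * ct P + sp x = (a : FI K) * (sp (p : K) * (I : FI K) + sp x) := by
    have e2 : (a : FI K) * (sp (p : K) * (I : FI K) + sp x) =
        sp (p : K) * ct P + (a : FI K) * sp x := by
      rw [ha]; ring
    rw [e2]
    apply le_antisymm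
    · rw [← sup_eq_add, sup_le_iff]
      refine ⟨?_, ?_⟩
      · rw [← sup_eq_add]; exact le_sup_left
      · calc sp x = ((a : FI K) + sp (p : K)) * sp x := by rw [hA1, one_mul]
          _ = sp (p : K) * sp x + (a : FI K) * sp x := by ring
          _ ≤ sp (p : K) * ct P + (a : FI K) * sp x := by gcongr
    · have : (a : FI K) * sp x ≤ sp x := by
        calc (a : FI K) * sp x ≤ 1 * sp x := by gcongr
          _ = sp x := one_mul _
      gcongr
  have hle1 : sp (p : K) * (I : FI K) ≤ sp (p : K) * (I : FI K) + sp x := by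
    rw [← sup_eq_add]; exact le_sup_left
  have hle2 : sp (p : K) * (I : FI K) + sp x ≤ (I : FI K) := by
    rw [← sup_eq_add, sup_le_iff]
    refine ⟨?_, hxc.trans hct⟩
    calc sp (p : K) * (I : FI K) ≤ 1 * (I : FI K) := by
          have := sp_natCast_le_one (K := K) p
          gcongr
      _ = I := one_mul _
  obtain ⟨m, hm, hnm⟩ := exists_pow hp hI hle1 hle2
  have h2m : 2 * m < finrank ℚ K := by
    by_contra hcon
    exact hL.2 m hm (not_lt.mp hcon) ⟨x, hx, hx', hnm⟩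
  have hIp := nm_pos hI
  have hAp := nm_pos hA0
  have e3 : nm (sp (p : K) * ct P + sp x) = nm (a : FI K) * ((p : ℚ) ^ m * nm (I : FI K)) := by
    rw [e1, nm, map_mul, ← hnm]
  have e4 : nm (ct P) = nm (a : FI K) * nm (I : FI K) := by
    rw [ha, nm, map_mul]
  rw [e3, e4]
  have hp1 : (1 : ℚ) < p := by exact_mod_cast hp.one_lt
  have h5 : (p : ℚ) ^ (2 * m) < (p : ℚ) ^ finrank ℚ K := pow_lt_pow_right₀ hp1 h2m
  calc (nm (a : FI K) * ((p : ℚ) ^ m * nm (I : FI K))) ^ 2 =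
      (p : ℚ) ^ (2 * m) * (nm (a : FI K) * nm (I : FI K)) ^ 2 := by
        rw [pow_mul']; ring
    _ < (p : ℚ) ^ finrank ℚ K * (nm (a : FI K) * nm (I : FI K)) ^ 2 := by
        have : 0 < (nm (a : FI K) * nm (I : FI K)) ^ 2 := by positivity
        gcongr

theorem ne_zero_of {p k : ℕ} (hp : p.Prime) (hk : 1 ≤ k) {β : 𝓞 K}
    (h : β * (p : 𝓞 K) ^ k = 1) : False := by
  have h1 : IsUnit (p : 𝓞 K) := by
    obtain ⟨j, rfl⟩ : ∃ j, k = j + 1 := ⟨k - 1, by omega⟩
    refine IsUnit.of_mul_eq_one (β * (p : 𝓞 K) ^ j) ?_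
    rw [← h]
    ring
  have h2 := h1.map (Algebra.norm ℤ)
  have h3 : ((p : 𝓞 K)) = algebraMap ℤ (𝓞 K) (p : ℤ) := by simp
  rw [h3, Algebra.norm_algebraMap, RingOfIntegers.rank] at h2
  have hn : finrank ℚ K ≠ 0 := finrank_pos.ne'
  rw [isUnit_pow_iff hn, Int.isUnit_iff] at h2
  have := hp.two_le
  omega

theorem pad : S_PAD K := by
  intro _ hn p hp φ hφ I b hb ε hε
  obtain ⟨k0, hk0⟩ := hφ.2.2 ε hε
  refine ⟨k0 + 1, ?_⟩
  intro z z' hN hN' hL hL' hz
  have hel : ∀ w : Fin (finrank ℚ K) → ℤ, el b w ∈ (I : FI K) := fun w => (hb _).2 ⟨w, rfl⟩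
  have hct : ct (pr b z) ≤ I := ct_le.2 ⟨hel _, hel _⟩
  have hind := hN.ind (by omega)
  have h0 : ct (pr b z) ≠ 0 := ct_ne hind.fst
  -- the difference
  choose w hw using hz
  have hd : ∀ f : Fin (finrank ℚ K) → Fin (finrank ℚ K) ⊕ Fin (finrank ℚ K),
      ∃ x ∈ (I : FI K), el b (fun i => z' (f i)) - el b (fun i => z (f i)) =
        (p : K) ^ (k0 + 1) * x := by
    intro f
    refine ⟨el b (fun i => -w (f i)), hel _, ?_⟩
    have h1 : (fun i => z' (f i)) = (fun i => z (f i)) + ((p : ℤ) ^ (k0 + 1)) •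
        (fun i => -w (f i)) := by
      funext i
      simp only [Pi.add_apply, Pi.smul_apply, smul_eq_mul]
      linear_combination (-1 : ℤ) * hw (f i)
    rw [h1, el_add, el_smul]
    push_cast
    ring
  obtain ⟨x1, hx1, hd1⟩ := hd Sum.inl
  obtain ⟨x2, hx2, hd2⟩ := hd Sum.inr
  -- the content
  obtain ⟨a, ha⟩ := exists_ideal (inv_mul_le_one I.ne_zero hct)
  have ha' : ct (pr b z) = (a : FI K) * (I : FI K) := by
    rw [ha, mul_comm, ← mul_assoc, mul_inv_cancel₀ I.ne_zero, one_mul]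
  have hred := redAt hp ha' hct h0 hL
  have hcop := coprime ha' hL.1
  have hcop2 : a ⊔ Ideal.span {(p : 𝓞 K)} ^ (k0 + 1) = ⊤ := Ideal.sup_pow_eq_top hcop
  have h1 : (1 : 𝓞 K) ∈ a ⊔ Ideal.span {(p : 𝓞 K)} ^ (k0 + 1) := by
    rw [hcop2]; trivial
  rw [Ideal.span_singleton_pow, Submodule.mem_sup] at h1
  obtain ⟨α, hα, β', hβ', hαβ⟩ := h1
  obtain ⟨β, rfl⟩ := Ideal.mem_span_singleton'.1 hβ'
  have hα0 : α ≠ 0 := by
    rintro rfl
    rw [zero_add] at hαβ
    exact ne_zero_of hp (by omega) hαβ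
  have hαK : (α : K) ≠ 0 := by
    intro h
    exact hα0 (by exact_mod_cast h)
  have hK : (α : K) + (β : K) * (p : K) ^ (k0 + 1) = 1 := by
    have := congrArg (algebraMap (𝓞 K) K) hαβ
    rw [map_add, map_mul, map_pow, map_natCast, map_one] at this
    exact this
  have hαa : (α : K) ∈ (a : FI K) := mem_coeIdeal_of_mem _ hα
  have hαx : ∀ x ∈ (I : FI K), (α : K) * x ∈ ct (pr b z) := by
    intro x hx
    rw [ha']
    exact FractionalIdeal.mul_mem_mul hαa hx
  have hβx : ∀ x ∈ ct (pr b z), (β : K) * x ∈ ct (pr b z) := by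
    intro x hx
    have := (ct (pr b z) : Submodule (𝓞 K) K).smul_mem β hx
    rw [Algebra.smul_def] at this
    exact this
  have hpow : ∀ y ∈ ct (pr b z), (p : K) ^ k0 * y ∈ sp (p : K) ^ k0 * ct (pr b z) := by
    intro y hy
    refine FractionalIdeal.mul_mem_mul ?_ hy
    rw [spanSingleton_pow]
    exact mem_spanSingleton_self _ _
  have key : ∀ u u' x : K, u ∈ ct (pr b z) → x ∈ (I : FI K) →
      u' - u = (p : K) ^ (k0 + 1) * x →
      (α : K) * u' - u ∈ sp (p : K) ^ k0 * ct (pr b z) := by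
    intro u u' x hu hx he
    have e1 : (α : K) * u' - u = (p : K) ^ k0 * ((p : K) * ((α : K) * x - (β : K) * u)) := by
      have e2 : u' = u + (p : K) ^ (k0 + 1) * x := by linear_combination he
      rw [e2]
      linear_combination u * hK
    rw [e1]
    apply hpow
    apply natCast_mul_mem
    exact (ct (pr b z) : Submodule (𝓞 K) K).sub_mem (hαx x hx) (hβx u hu)
  have hfin := hk0 (pr b z) ((α : K) • pr b z') hN (hN'.smul hαK) hred
    (key _ _ x1 (fst_mem_ct _) hx1 hd1) (key _ _ x2 (snd_mem_ct _) hx2 hd2)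
  have e5 : ((α : K) • pr b z').2 / ((α : K) • pr b z').1 = (pr b z').2 / (pr b z').1 := by
    show ((α : K) * (pr b z').2) / ((α : K) * (pr b z').1) = _
    rw [mul_div_mul_left _ _ hαK]
  rw [e5, abs_sub_comm] at hfin
  exact hfin

end Pool.Agent.Y297.KF
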